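import Pool.Agent.W_MP_b91f46_mp.General

/-!
# Atomic TFDW minimizers beyond the neutral mass need not be symmetric decreasing

For all `p > 4/3`, `γ > 0`, `C_e > 0`, every sufficiently small `A > 0` and every sufficiently
small nuclear charge `z > 0` there is a mass `lam > z` at which the TFDW functional has a
minimizer, and no minimizer `ψ` at this mass is symmetric decreasing, nor is `-ψ`.
-/

namespace Pool.Agent.Results.MP_b91f46_mp.SymmetryFails

open Pool.Agent.W_MP_b91f46_mp

/-- The symmetry assertion fails for every exponent `p > 4/3` and all `γ, C_e > 0`: for small `A`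
and small `z` there is `lam > z` such that minimizers at `lam` exist and none of them is
symmetric decreasing up to sign. -/
theorem result : ∀ p γ Ce : ℝ, 4 / 3 < p → 0 < γ → 0 < Ce →
    ∃ A₀ : ℝ, 0 < A₀ ∧ ∀ A : ℝ, 0 < A → A < A₀ →
      ∃ z₀ : ℝ, 0 < z₀ ∧ ∀ z : ℝ, 0 < z → z < z₀ →
        ∃ lam : ℝ, z < lam ∧ (∃ ψ : E3 → ℝ, IsMinimizer A γ Ce p z lam ψ) ∧
          ∀ ψ : E3 → ℝ, IsMinimizer A γ Ce p z lam ψ →
            ¬ SymDecr ψ ∧ ¬ SymDecr (fun x => -ψ x) := by
  intro p γ Ce hp hγ hCe
  exact main_general hp hγ hCe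

end Pool.Agent.Results.MP_b91f46_mp.SymmetryFails
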